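import Pool.Agent.Run7.h668.TK.Iface

/-!
# Project TK, piece INS: the insertion operator maps the cone of the structures into the cone
-/

set_option autoImplicit false

namespace Pool.Agent.Run7.h687.TK

open Polynomial
open Pool.Agent.Run7.h668.TK

/-- `O N Q = N Q - (1 - t) x Q'` -/
noncomputable def OO (a N : ℕ) (Q : BB) : BB := (N : BB) * Q - (1 - tt 1 a) * opE Q

theorem opE_mul (P Q : BB) : opE (P * Q) = opE P * Q + P * opE Q := by
  unfold opE
  rw [derivative_mul]
  ring

theorem opE_add (P Q : BB) : opE (P + Q) = opE P + opE Q := by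
  unfold opE
  rw [derivative_add]
  ring

theorem opE_sub (P Q : BB) : opE (P - Q) = opE P - opE Q := by
  unfold opE
  rw [derivative_sub]
  ring

theorem opE_one : opE (1 : BB) = 0 := by
  unfold opE
  rw [derivative_one, mul_zero]

theorem opE_natCast (n : ℕ) : opE ((n : ℕ) : BB) = 0 := by
  unfold opE
  rw [derivative_natCast, mul_zero]

theorem opE_uu : opE uu = 0 := by
  unfold opE uu
  rw [derivative_C, mul_zero]

theorem opE_tt (k c : ℕ) : opE (tt k c) = (k : BB) * tt k c := by
  unfold opE tt
  rw [derivative_mul, derivative_C, mul_zero, add_zero, derivative_X_pow]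
  cases k with
  | zero => simp
  | succ k =>
    rw [Nat.add_sub_cancel, pow_succ]
    simp only [map_natCast]
    ring

theorem tt_mul (k c l d : ℕ) : tt k c * tt l d = tt (k + l) (c + d) := by
  unfold tt
  rw [pow_add, pow_add, C_mul, C_mul]
  ring

theorem opE_list_sum (l : List BB) : opE l.sum = (l.map opE).sum := by
  induction l with
  | nil => simp [opE]
  | cons a l ih => rw [List.sum_cons, opE_add, ih, List.map_cons, List.sum_cons]

/-- Leibniz rule -/
theorem OO_mul (a N1 N2 : ℕ) (Q1 Q2 : BB) :
    OO a (N1 + N2) (Q1 * Q2) = OO a N1 Q1 * Q2 + Q1 * OO a N2 Q2 := by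
  unfold OO
  rw [opE_mul]
  push_cast
  ring

/-- the factor of a cycle -/
noncomputable def cf (p : ℕ × ℕ) : BB := uu * (1 - tt p.1 p.2)

/-- (i) -/
theorem OO_cf (a : ℕ) (p : ℕ × ℕ) : OO a p.1 (cf p) = (p.1 : BB) * cf (p.1 + 1, p.2 + a) := by
  have h1 : tt 1 a * tt p.1 p.2 = tt (p.1 + 1) (p.2 + a) := by
    rw [tt_mul, Nat.add_comm 1, Nat.add_comm a]
  unfold OO cf
  rw [opE_mul, opE_uu, opE_sub, opE_one, opE_tt]
  simp only
  rw [← h1]
  ring

/-- (ii) -/
theorem OO_gx (a : ℕ) (R : List ℕ) (hR : 1 ≤ R.length) :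
    OO a (R.length - 1) (gx R) = ((R.length - 1 : ℕ) : BB) * gx (a :: R) := by
  obtain ⟨r, hr⟩ : ∃ r, R.length = r + 1 := ⟨R.length - 1, by omega⟩
  have hle : ∀ b ∈ R, b ≤ R.sum := fun b hb => List.le_sum_of_mem hb
  -- the sum
  have hS1 : opE ((R.map fun b => tt r (R.sum - b)).sum) =
      (r : BB) * (R.map fun b => tt r (R.sum - b)).sum := by
    have e : (R.map fun b => tt r (R.sum - b)).map opE =
        R.map fun b => (r : BB) * tt r (R.sum - b) := by
      rw [List.map_map]
      apply List.map_congr_left
      intro b _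
      exact opE_tt r (R.sum - b)
    rw [opE_list_sum, e, List.sum_map_mul_left]
  have hS2 : (R.map fun b => tt (r + 1) (a + R.sum - b)).sum =
      tt 1 a * (R.map fun b => tt r (R.sum - b)).sum := by
    have e : (R.map fun b => tt (r + 1) (a + R.sum - b)) =
        R.map fun b => tt 1 a * tt r (R.sum - b) := by
      apply List.map_congr_left
      intro b hb
      have h := hle b hb
      have e1 : 1 + r = r + 1 := by omega
      have e2 : a + (R.sum - b) = a + R.sum - b := by omega
      rw [tt_mul, e1, e2]
    rw [e, List.sum_map_mul_left]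
  have hT : tt (r + 2) (a + R.sum) = tt 1 a * tt (r + 1) R.sum := by
    have e1 : 1 + (r + 1) = r + 2 := by omega
    rw [tt_mul, e1]
  unfold OO gx
  simp only [List.length_cons, List.map_cons, List.sum_cons, hr]
  simp only [Nat.add_sub_cancel]
  have h3 : a + R.sum - a = R.sum := by omega
  rw [h3, hS2]
  have h4 : r + 1 + 1 = r + 2 := rfl
  rw [h4, hT]
  rw [opE_add, opE_sub, opE_one, opE_mul, opE_natCast, hS1, opE_tt]
  push_cast
  ring

theorem prod_insert (pre cyc : List (ℕ × ℕ)) (p : ℕ × ℕ) :
    ((pre ++ p :: cyc).map cf).prod = (pre.map cf).prod * cf p * (cyc.map cf).prod := by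
  rw [List.map_append, List.prod_append, List.map_cons, List.prod_cons]
  ring

theorem st_eq (cyc : List (ℕ × ℕ)) (R : List ℕ) :
    st cyc R = (cyc.map cf).prod * (((R.length - 2).factorial : ℕ) : BB) * gx R := rfl

theorem mem_cone (n M : ℕ) (cyc : List (ℕ × ℕ)) (R : List ℕ) (h : Valid n M cyc R) :
    st cyc R ∈ Cone n M := by
  unfold Cone
  exact AddSubmonoid.subset_closure ⟨cyc, R, h, rfl⟩

/-- the part of the cycles -/
theorem cyc_mem (n M a : ℕ) (R : List ℕ) :
    ∀ (cyc pre : List (ℕ × ℕ)), Valid n M (pre ++ cyc) R →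
      (pre.map cf).prod * OO a (cyc.map Prod.fst).sum ((cyc.map cf).prod) *
        (((R.length - 2).factorial : ℕ) : BB) * gx R ∈ Cone (n + 1) (M + a) := by
  intro cyc
  induction cyc with
  | nil =>
    intro pre _
    have h0 : OO a (([] : List (ℕ × ℕ)).map Prod.fst).sum
        ((([] : List (ℕ × ℕ)).map cf).prod) = 0 := by
      unfold OO
      rw [List.map_nil, List.map_nil, List.sum_nil, List.prod_nil, opE_one, Nat.cast_zero,
        zero_mul, mul_zero]
      exact sub_self (0 : BB)
    rw [h0]
    simp
  | cons p cyc ih =>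
    intro pre hv
    rw [List.map_cons, List.map_cons, List.sum_cons, List.prod_cons, OO_mul, OO_cf]
    have h1 : (pre.map cf).prod *
        ((p.1 : BB) * cf (p.1 + 1, p.2 + a) * (cyc.map cf).prod +
          cf p * OO a (cyc.map Prod.fst).sum ((cyc.map cf).prod)) *
        (((R.length - 2).factorial : ℕ) : BB) * gx R =
        p.1 • st (pre ++ (p.1 + 1, p.2 + a) :: cyc) R +
        ((pre ++ [p]).map cf).prod * OO a (cyc.map Prod.fst).sum ((cyc.map cf).prod) *
        (((R.length - 2).factorial : ℕ) : BB) * gx R := by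
      rw [st_eq, prod_insert, prod_insert, List.map_nil, List.prod_nil, nsmul_eq_mul]
      ring
    rw [h1]
    obtain ⟨hv1, hv2, hv3, hv4, hv5⟩ := hv
    apply AddSubmonoid.add_mem
    · apply AddSubmonoid.nsmul_mem
      apply mem_cone
      refine ⟨?_, hv2, hv3, ?_, ?_⟩
      · intro p' hp'
        rw [List.mem_append, List.mem_cons] at hp'
        rcases hp' with h | h | h
        · exact hv1 p' (List.mem_append.2 (Or.inl h))
        · subst h
          have := hv1 p (List.mem_append.2 (Or.inr (List.mem_cons_self)))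
          constructor
          · simp only
            omega
          · simp only
            omega
        · exact hv1 p' (List.mem_append.2 (Or.inr (List.mem_cons_of_mem _ h)))
      · simp only [List.map_append, List.map_cons, List.sum_append, List.sum_cons] at hv4 ⊢
        omega
      · simp only [List.map_append, List.map_cons, List.sum_append, List.sum_cons] at hv5 ⊢
        omega
    · apply ih
      have h2 : pre ++ [p] ++ cyc = pre ++ p :: cyc := by simp
      rw [h2]
      exact ⟨hv1, hv2, hv3, hv4, hv5⟩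

theorem ins_st (n M a : ℕ) (ha : 1 ≤ a) (cyc : List (ℕ × ℕ)) (R : List ℕ) (hv : Valid n M cyc R) :
    ins (n - 1) a (st cyc R) ∈ Cone (n + 1) (M + a) := by
  obtain ⟨r, hr⟩ : ∃ r, R.length = r + 2 := ⟨R.length - 2, by have := hv.2.1; omega⟩
  have hn : n - 1 = (cyc.map Prod.fst).sum + (R.length - 1) := by
    have := hv.2.2.2.1
    omega
  have hg := OO_gx a R (by omega)
  have hL : OO a (n - 1) (st cyc R) =
      (([] : List (ℕ × ℕ)).map cf).prod * OO a (cyc.map Prod.fst).sum ((cyc.map cf).prod) *
        (((R.length - 2).factorial : ℕ) : BB) * gx R + st cyc (a :: R) := by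
    rw [hn, st_eq, st_eq, mul_assoc, OO_mul]
    have h1 : OO a (R.length - 1) ((((R.length - 2).factorial : ℕ) : BB) * gx R) =
        (((R.length - 2).factorial : ℕ) : BB) * OO a (R.length - 1) (gx R) := by
      unfold OO
      rw [opE_mul, opE_natCast]
      ring
    rw [h1, hg]
    have h2 : ((((a :: R).length - 2).factorial : ℕ) : BB) =
        (((R.length - 2).factorial : ℕ) : BB) * ((R.length - 1 : ℕ) : BB) := by
      rw [List.length_cons, hr]
      have e1 : r + 2 + 1 - 2 = r + 1 := by omega
      have e2 : r + 2 - 2 = r := by omega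
      have e3 : r + 2 - 1 = r + 1 := by omega
      rw [e1, e2, e3, Nat.factorial_succ]
      push_cast
      ring
    rw [h2, List.map_nil, List.prod_nil]
    ring
  have hI : ins (n - 1) a (st cyc R) = st ((1, a) :: cyc) R + OO a (n - 1) (st cyc R) := by
    have h1 : st ((1, a) :: cyc) R = uu * (1 - tt 1 a) * st cyc R := by
      rw [st_eq, st_eq, List.map_cons, List.prod_cons]
      have : cf (1, a) = uu * (1 - tt 1 a) := rfl
      rw [this]
      ring
    rw [h1]
    unfold ins OO
    ring
  rw [hI, hL]
  obtain ⟨hv1, hv2, hv3, hv4, hv5⟩ := hv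
  apply AddSubmonoid.add_mem
  · apply mem_cone
    refine ⟨?_, hv2, hv3, ?_, ?_⟩
    · intro p hp
      rcases List.mem_cons.1 hp with h | h
      · subst h
        exact ⟨le_refl _, ha⟩
      · exact hv1 p h
    · simp only [List.map_cons, List.sum_cons]
      omega
    · simp only [List.map_cons, List.sum_cons]
      omega
  · apply AddSubmonoid.add_mem
    · exact cyc_mem n M a R cyc [] ⟨hv1, hv2, hv3, hv4, hv5⟩
    · apply mem_cone
      refine ⟨hv1, ?_, ?_, ?_, ?_⟩
      · rw [List.length_cons]
        omega
      · intro b hb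
        rcases List.mem_cons.1 hb with h | h
        · subst h
          exact ha
        · exact hv3 b h
      · rw [List.length_cons]
        omega
      · rw [List.sum_cons]
        omega

theorem ins_add (N a : ℕ) (P Q : BB) : ins N a (P + Q) = ins N a P + ins N a Q := by
  unfold ins
  rw [opE_add]
  ring

theorem ins_zero (N a : ℕ) : ins N a 0 = 0 := by
  unfold ins opE
  rw [derivative_zero, mul_zero, mul_zero, mul_zero]
  exact sub_self (0 : BB)

/-- **INS.** -/
theorem t_INS : S_INS := by
  intro n M a ha P hP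
  unfold Cone at hP
  induction hP using AddSubmonoid.closure_induction with
  | mem x hx =>
    obtain ⟨cyc, R, hv, rfl⟩ := hx
    exact ins_st n M a ha cyc R hv
  | zero =>
    rw [ins_zero]
    exact AddSubmonoid.zero_mem _
  | add x y _ _ hx hy =>
    rw [ins_add]
    exact AddSubmonoid.add_mem _ hx hy

end Pool.Agent.Run7.h687.TK
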